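import Pool.Agent.H.MP_454fc7_co.D

namespace Pool.Agent.H.MP_454fc7_co

open Finset

variable {n : ℕ}

lemma mem_P {M : Matroid (Fin n)} {B : Set (Fin n)} (h : M.IsBase B) : B.indicator 1 ∈ P M :=
  subset_convexHull _ _ ⟨B, h, rfl⟩

lemma hull_le {M : Matroid (Fin n)} (c : Fin n → ℝ) (t : ℝ)
    (h : ∀ B, M.IsBase B → ∑ i, c i * B.indicator (1 : Fin n → ℝ) i ≤ t) :
    ∀ x ∈ P M, ∑ i, c i * x i ≤ t := by
  intro x hx
  refine convexHull_min (t := {x : Fin n → ℝ | ∑ i, c i * x i ≤ t}) ?_ ?_ hx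
  · rintro _ ⟨B, hB, rfl⟩
    exact h B hB
  · refine convex_halfSpace_le ⟨fun a b => ?_, fun a b => ?_⟩ t
    · simp [mul_add, sum_add_distrib]
    · simp [mul_sum, mul_left_comm]

lemma vert {M : Matroid (Fin n)} {B : Set (Fin n)} (h : B.indicator 1 ∈ P M) : M.IsBase B := by
  classical
  by_contra hB
  have := hull_le (M := M) (fun i => if i ∈ B then 1 else -1)
    (∑ i, (if i ∈ B then (1 : ℝ) else 0) - 1) (fun B' hB' => by
      have hne : B' ≠ B := fun e => hB (e ▸ hB')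
      obtain ⟨j, hj⟩ : ∃ j, ¬ (j ∈ B' ↔ j ∈ B) := by
        by_contra c
        push Not at c
        exact hne (Set.ext c)
      rw [le_sub_iff_add_le, ← le_sub_iff_add_le', ← sum_sub_distrib]
      refine le_trans ?_ (single_le_sum (f := fun i => (if i ∈ B then (1 : ℝ) else 0) -
        (if i ∈ B then 1 else -1) * B'.indicator (1 : Fin n → ℝ) i) (fun i _ => ?_) (mem_univ j))
      · by_cases a : j ∈ B <;> by_cases b : j ∈ B' <;> simp_all
      · by_cases a : i ∈ B <;> by_cases b : i ∈ B' <;> simp [a, b]) _ h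
  have e : ∑ i, (if i ∈ B then (1 : ℝ) else -1) * B.indicator (1 : Fin n → ℝ) i =
      ∑ i, (if i ∈ B then (1 : ℝ) else 0) :=
    sum_congr rfl fun i _ => by by_cases a : i ∈ B <;> simp [a]
  linarith

lemma P_closed (M : Matroid (Fin n)) : IsClosed (P M) := by
  refine Set.Finite.isClosed_convexHull ℝ ?_
  refine (Set.finite_range fun B : Set (Fin n) => B.indicator (1 : Fin n → ℝ)).subset ?_
  rintro _ ⟨B, -, rfl⟩
  exact ⟨B, rfl⟩

/-- exchange property for finite sets -/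
def Ex (g : Finset (Fin n) → Prop) : Prop :=
  ∀ X Y, g X → g Y → ∀ a ∈ X, a ∉ Y → ∃ y ∈ Y, y ∉ X ∧ g (insert y (X.erase a))

lemma ex_of (N : Matroid (Fin n)) : Ex fun X : Finset (Fin n) => N.IsBase X := by
  intro X Y hX hY a h1 h2
  obtain ⟨y, hy, h⟩ := hX.exchange hY (e := a) ⟨h1, h2⟩
  exact ⟨y, hy.1, hy.2, by simpa using h⟩

/-- a matroid from its bases -/
def mk (g : Finset (Fin n) → Prop) (h : Ex g) (X : Finset (Fin n)) (hX : g X) :
    Matroid (Fin n) :=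
  Matroid.ofIsBaseOfFinite Set.finite_univ (fun B => ∃ X, g X ∧ B = X) ⟨_, X, hX, rfl⟩
    (by
      rintro _ _ ⟨X, h1, rfl⟩ ⟨Y, h2, rfl⟩ a ⟨h3, h4⟩
      obtain ⟨y, a1, a2, a3⟩ := h X Y h1 h2 a h3 h4
      exact ⟨y, ⟨a1, a2⟩, _, a3, by simp⟩)
    (fun _ _ => Set.subset_univ _)

lemma mk_base {g : Finset (Fin n) → Prop} {h : Ex g} {X : Finset (Fin n)} {hX : g X}
    {B : Set (Fin n)} : (mk g h X hX).IsBase B ↔ ∃ Y, g Y ∧ B = Y := Iff.rfl

lemma mk_base' {g : Finset (Fin n) → Prop} {h : Ex g} {X : Finset (Fin n)} {hX : g X}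
    {Y : Finset (Fin n)} : (mk g h X hX).IsBase Y ↔ g Y := by
  rw [mk_base]
  constructor
  · rintro ⟨Z, h1, h2⟩
    rwa [coe_injective h2]
  · exact fun h => ⟨Y, h, rfl⟩

lemma mk_conn {g : Finset (Fin n) → Prop} {h : Ex g} {X : Finset (Fin n)} {hX : g X}
    (hc : ∀ A : Finset (Fin n), A ≠ ∅ → A ≠ univ → ∃ Y, g Y ∧ (X ∩ A).card ≠ (Y ∩ A).card) :
    Conn (mk g h X hX) := by
  rintro ⟨M₁, M₂, hd, h1, h2, e⟩
  obtain ⟨A, hA⟩ := M₁.E.toFinite.exists_finset_coe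
  obtain ⟨Y, hY, hne⟩ := hc A (by
    rintro rfl
    rw [← hA] at h1
    simp at h1) (by
    rintro rfl
    obtain ⟨x, hx⟩ := h2
    exact Set.disjoint_left.1 hd (by rw [← hA]; simp) hx)
  have a : (mk g h X hX).IsBase X := mk_base'.2 hX
  have b : (mk g h X hX).IsBase Y := mk_base'.2 hY
  rw [e, Matroid.disjointSum_isBase_iff, ← hA] at a b
  have := a.1.encard_eq_encard_of_isBase b.1
  rw [← coe_inter, ← coe_inter, Set.encard_coe_eq_coe_finsetCard,
    Set.encard_coe_eq_coe_finsetCard] at this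
  exact hne (by exact_mod_cast this)

/-- unit propagation along the exchange property -/
def run (F : Finset (Fin n) → Bool) :
    List (Finset (Fin n) × Finset (Fin n) × Fin n) → List (Finset (Fin n)) → Bool
  | [], _ => true
  | (X, Y, a) :: l, D => F Y &&
      (decide (a ∈ Y ∧ a ∉ X ∧ ∀ y ∈ X, y ∉ Y → insert y (Y.erase a) ∈ D) ||
        decide (a ∈ X ∧ a ∉ Y ∧ ∀ y ∈ Y, y ∉ X → insert y (X.erase a) ∈ D)) && run F l (X :: D)

lemma run_sound {g : Finset (Fin n) → Prop} (h : Ex g) {F : Finset (Fin n) → Bool}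
    (hF : ∀ Y, F Y = true → g Y) : ∀ l D, run F l D = true → (∀ Z ∈ D, ¬ g Z) →
      ∀ Z ∈ l.map Prod.fst, ¬ g Z := by
  intro l
  induction l with
  | nil => simp
  | cons t l ih =>
    obtain ⟨X, Y, a⟩ := t
    intro D hr hD
    simp only [run, Bool.and_eq_true, Bool.or_eq_true, decide_eq_true_eq] at hr
    obtain ⟨⟨h1, h2⟩, h3⟩ := hr
    have hX : ¬ g X := fun hX => by
      rcases h2 with ⟨a1, a2, a3⟩ | ⟨a1, a2, a3⟩
      · obtain ⟨y, b1, b2, b3⟩ := h Y X (hF Y h1) hX a a1 a2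
        exact hD _ (a3 y b1 b2) b3
      · obtain ⟨y, b1, b2, b3⟩ := h X Y hX (hF Y h1) a a1 a2
        exact hD _ (a3 y b1 b2) b3
    intro Z hZ
    rcases List.mem_cons.1 hZ with rfl | hZ
    · exact hX
    · refine ih _ h3 (fun W hW => ?_) Z hZ
      rcases List.mem_cons.1 hW with rfl | hW
      · exact hX
      · exact hD W hW

end Pool.Agent.H.MP_454fc7_co
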