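import Pool.Agent.H.MP_454fc7_co.A

namespace Pool.Agent.H.MP_454fc7_co

open Finset

/-- the four points that become parallel -/
def S : Finset (Fin 8) := {0, 1, 2, 3}

/-- three-point lines -/
def lines : List (Finset (Fin 8)) :=
  [{0, 1, 4}, {2, 3, 4}, {1, 2, 5}, {0, 2, 6}, {1, 3, 6}, {0, 3, 7}]

/-- bases of the large matroid -/
def g1 (X : Finset (Fin 8)) : Prop := X.card = 3 ∧ X ∉ lines

/-- bases on the facet -/
def FF (X : Finset (Fin 8)) : Bool := decide (X.card = 3 ∧ (X ∩ S).card = 1 ∧ ¬ (6 ∈ X ∧ 7 ∈ X))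

/-- bases of the small matroid -/
def g2 (X : Finset (Fin 8)) : Prop := (X.card = 3 ∧ (X ∩ S).card = 0) ∨ FF X = true

instance : DecidablePred g1 := fun _ => by unfold g1; infer_instance
instance : DecidablePred g2 := fun _ => by unfold g2; infer_instance

lemma ex1 : Ex g1 := by
  have : ∀ X, g1 X → ∀ Y, g1 Y → ∀ a ∈ X, a ∉ Y → ∃ y ∈ Y, y ∉ X ∧ g1 (insert y (X.erase a)) := by
    decide +kernel
  exact fun X Y h1 h2 => this X h1 Y h2

lemma ex2 : Ex g2 := by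
  have : ∀ X, g2 X → ∀ Y, g2 Y → ∀ a ∈ X, a ∉ Y → ∃ y ∈ Y, y ∉ X ∧ g2 (insert y (X.erase a)) := by
    decide +kernel
  exact fun X Y h1 h2 => this X h1 Y h2

/-- the large matroid -/
def M1 : Matroid (Fin 8) := mk g1 ex1 {0, 4, 5} (by decide)

/-- the small matroid -/
def M2 : Matroid (Fin 8) := mk g2 ex2 {0, 4, 5} (by decide)

lemma conn1 : Conn M1 := mk_conn (by decide +kernel)

lemma conn2 : Conn M2 := mk_conn (by decide +kernel)

lemma g21 : ∀ X, g2 X → g1 X := by decide +kernel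

lemma sub : P M2 ⊆ P M1 := by
  refine convexHull_mono ?_
  rintro _ ⟨_, ⟨X, h, rfl⟩, rfl⟩
  exact ⟨_, ⟨X, g21 X h, rfl⟩, rfl⟩

lemma ssub : P M2 ⊂ P M1 := by
  refine ⟨sub, fun h => ?_⟩
  have a : M1.IsBase ({0, 1, 2} : Finset (Fin 8)) := mk_base'.2 (by decide)
  exact absurd (mk_base'.1 (vert (h (mem_P a)))) (by decide)

/-- the propagation steps -/
def steps : List (Finset (Fin 8) × Finset (Fin 8) × Fin 8) :=
  [({0, 2, 7}, {0, 4, 6}, 4), ({0, 3, 6}, {0, 4, 7}, 4), ({1, 3, 7}, {1, 4, 6}, 4),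
  ({2, 3, 6}, {0, 4, 6}, 4), ({2, 3, 7}, {0, 4, 6}, 4), ({0, 1, 2}, {3, 4, 6}, 4),
  ({0, 1, 3}, {3, 4, 6}, 4), ({0, 1, 6}, {3, 4, 6}, 4), ({0, 1, 7}, {0, 4, 6}, 4),
  ({0, 2, 3}, {0, 4, 6}, 4), ({1, 2, 3}, {0, 4, 6}, 4), ({1, 2, 6}, {0, 4, 6}, 4),
  ({1, 2, 7}, {0, 4, 6}, 4), ({2, 3, 5}, {0, 4, 6}, 5), ({0, 1, 5}, {0, 4, 6}, 5),
  ({0, 2, 5}, {1, 4, 5}, 4), ({0, 3, 5}, {2, 4, 5}, 4), ({1, 2, 4}, {0, 5, 6}, 4),
  ({1, 3, 4}, {2, 4, 5}, 5), ({1, 3, 5}, {0, 4, 5}, 4), ({0, 2, 4}, {0, 5, 6}, 4),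
  ({0, 3, 4}, {0, 5, 6}, 4)]

lemma comb (N : Matroid (Fin 8)) (h1 : ∀ X : Finset (Fin 8), N.IsBase X → g1 X)
    (h2 : ∀ X : Finset (Fin 8), FF X = true → N.IsBase X)
    (h3 : ∀ s ∈ S, ¬ N.IsBase ({s, 6, 7} : Finset (Fin 8))) (X : Finset (Fin 8))
    (hX : N.IsBase X) : (X ∩ S).card ≤ 1 := by
  have a := run_sound (ex_of N) h2 steps ({0, 6, 7} :: {1, 6, 7} :: {2, 6, 7} :: {3, 6, 7} :: lines)
    (by decide +kernel) (by
      intro Z hZ
      simp only [List.mem_cons] at hZ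
      rcases hZ with rfl | rfl | rfl | rfl | hZ
      · exact h3 0 (by decide)
      · exact h3 1 (by decide)
      · exact h3 2 (by decide)
      · exact h3 3 (by decide)
      · exact fun h => (h1 Z h).2 hZ)
  have b : ∀ X, g1 X → X ∉ steps.map Prod.fst → (X ∩ S).card ≤ 1 := by decide +kernel
  exact b X (h1 X hX) fun h => a X h hX

/-- indicator vector -/
noncomputable def e (X : Finset (Fin 8)) : Fin 8 → ℝ := (X : Set (Fin 8)).indicator 1

lemma e_S (X : Finset (Fin 8)) :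
    ∑ i, (if i ∈ S then (1 : ℝ) else 0) * e X i = (X ∩ S).card := by
  rw [card_eq_sum_ones, Nat.cast_sum, ← sum_subset (subset_univ (X ∩ S))]
  · refine sum_congr rfl fun i hi => ?_
    rw [mem_inter] at hi
    simp [e, hi.1, hi.2]
  · intro i _ hi
    by_cases a : i ∈ S
    · have : i ∉ X := fun b => hi (mem_inter.2 ⟨b, a⟩)
      simp [e, this]
    · simp [a]

lemma main (K : Set (Set (Fin 8 → ℝ))) (hK : Cells M1 K) : P M2 ∉ K := by
  intro hM
  obtain ⟨k1, k2, k3, k4⟩ := hK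
  set F : Finset (Finset (Fin 8)) := univ.filter fun X => FF X = true with hF
  have hc : F.card = 20 := by decide +kernel
  have eF : ∀ X ∈ F, e X ∈ P M2 := fun X hX =>
    mem_P (mk_base'.2 (Or.inr (mem_filter.1 hX).2))
  set x : Fin 8 → ℝ := ∑ X ∈ F, (1 / 20 : ℝ) • e X with hx
  have x2 : x ∈ P M2 := (convex_convexHull ℝ _).sum_mem (fun _ _ => by norm_num)
    (by rw [sum_const, hc]; norm_num) eF
  have y1 : e {0, 1, 2} ∈ P M1 := mem_P (mk_base'.2 (by decide))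
  set φ : (Fin 8 → ℝ) → ℝ := fun z => ∑ i, (if i ∈ S then (1 : ℝ) else 0) * z i with hφ
  have φx : φ x = 1 := by
    have : φ x = ∑ X ∈ F, (1 / 20 : ℝ) * φ (e X) := by
      simp only [hφ, hx, Finset.sum_apply, Pi.smul_apply, smul_eq_mul, mul_sum]
      rw [sum_comm]
      exact sum_congr rfl fun _ _ => sum_congr rfl fun _ _ => by ring
    rw [this, sum_congr rfl (g := fun _ => (1 / 20 : ℝ)), sum_const, hc]
    · norm_num
    · intro X hX
      have := (mem_filter.1 hX).2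
      simp only [FF, decide_eq_true_eq] at this
      simp only [hφ]
      rw [e_S, this.2.1]
      norm_num
  have φy : φ (e {0, 1, 2}) = 3 := by
    simp only [hφ]
    rw [e_S]
    norm_cast
  have cl : x ∈ closure (⋃ C ∈ K, C ∩ {z | 1 < φ z}) := by
    refine closure_mono ?_ (segment_subset_closure_openSegment (left_mem_segment ℝ x (e {0, 1, 2})))
    rintro z ⟨a, b, ha, hb, hab, rfl⟩
    have m : a • x + b • e {0, 1, 2} ∈ ⋃₀ K := by
      rw [k3]
      exact (convex_convexHull ℝ _) (sub x2) y1 ha.le hb.le hab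
    obtain ⟨C, hC, m⟩ := m
    refine Set.mem_biUnion hC ⟨m, ?_⟩
    have : φ (a • x + b • e {0, 1, 2}) = a * φ x + b * φ (e {0, 1, 2}) := by
      simp only [hφ, Pi.add_apply, Pi.smul_apply, smul_eq_mul, mul_sum, ← sum_add_distrib]
      exact sum_congr rfl fun _ _ => by ring
    change 1 < φ _
    rw [this, φx, φy]
    linarith
  rw [k1.closure_biUnion] at cl
  obtain ⟨C, hC, cl⟩ := Set.mem_iUnion₂.1 cl
  obtain ⟨N, -, rfl⟩ := k2 C hC
  have xN : x ∈ P N := (P_closed N).closure_subset (closure_mono Set.inter_subset_left cl)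
  obtain ⟨z, z1, z2⟩ := closure_nonempty_iff.1 ⟨x, cl⟩
  obtain ⟨l, hl⟩ := k4 _ hM _ hC ⟨x, x2, xN⟩
  obtain ⟨l', hl'⟩ := k4 _ hC _ hM ⟨x, xN, x2⟩
  have lx : ∀ y ∈ P M2, l y ≤ l x := (hl.subset ⟨x2, xN⟩).2
  have eN : ∀ X ∈ F, e X ∈ P N := by
    have s : ∑ X ∈ F, (l x - l (e X)) = 0 := by
      rw [sum_sub_distrib, sum_const, hc, hx, map_sum]
      simp only [map_smul, smul_eq_mul, ← mul_sum, nsmul_eq_mul]
      ring
    rw [sum_eq_zero_iff_of_nonneg fun X hX => sub_nonneg.2 (lx _ (eF X hX))] at s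
    intro X hX
    refine (hl.superset ⟨eF X hX, fun y hy => ?_⟩).2
    linarith [s X hX, lx y hy]
  have key := comb N (fun X hX => mk_base'.1 (vert (M := M1) (by
      rw [← k3]; exact ⟨_, hC, mem_P hX⟩)))
    (fun X hX => vert (eN X (mem_filter.2 ⟨mem_univ _, hX⟩))) (by
      intro s hs hb
      have q : ∀ s ∈ S, FF {s, 4, 5} = true ∧ FF {s, 4, 6} = true ∧ FF {s, 5, 7} = true ∧
        ¬ g2 {s, 6, 7} := by decide +kernel
      obtain ⟨q1, q2, q3, q4⟩ := q s hs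
      have f : ∀ X, FF X = true → ∀ y ∈ P N, l' y ≤ l' (e X) := fun X hX =>
        have m : X ∈ F := mem_filter.2 ⟨mem_univ _, hX⟩
        (hl'.subset ⟨eN X m, eF X m⟩).2
      have id : e {s, 6, 7} + e {s, 4, 5} = e {s, 4, 6} + e {s, 5, 7} := by
        ext i
        have : s ≠ 4 ∧ s ≠ 5 ∧ s ≠ 6 ∧ s ≠ 7 :=
          (by decide : ∀ s ∈ S, s ≠ 4 ∧ s ≠ 5 ∧ s ≠ 6 ∧ s ≠ 7) s hs
        by_cases h : i = s
        · simp [e, h]
        · fin_cases i <;> simp_all [e]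
      have id' := congrArg l' id
      rw [map_add, map_add] at id'
      have m : e {s, 6, 7} ∈ P N ∩ P M2 := hl'.superset ⟨mem_P hb, fun y hy => by
        have a1 := f _ q2 y hy
        have a2 := f _ q3 _ (eN _ (mem_filter.2 ⟨mem_univ _, q1⟩))
        linarith⟩
      exact q4 (mk_base'.1 (vert m.2)))
  have := hull_le (M := N) (fun i => if i ∈ S then (1 : ℝ) else 0) 1 (fun B hB => by
    obtain ⟨X, rfl⟩ := B.toFinite.exists_finset_coe
    have a := e_S X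
    have b : ((X ∩ S).card : ℝ) ≤ 1 := by exact_mod_cast key X hB
    exact a.le.trans b) z z1
  exact absurd z2 (not_lt.2 this)

end Pool.Agent.H.MP_454fc7_co
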