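import Mathlib

namespace Pool.Agent.H.MP_454fc7_co

/-- the matroid polytope: convex hull of the indicator vectors of the bases -/
def P {n : ℕ} (M : Matroid (Fin n)) : Set (Fin n → ℝ) :=
  convexHull ℝ {x | ∃ B, M.IsBase B ∧ x = B.indicator 1}

/-- not a direct sum of two matroids on nonempty ground sets -/
def Conn {n : ℕ} (M : Matroid (Fin n)) : Prop :=
  ¬ ∃ (M₁ M₂ : Matroid (Fin n)) (h : Disjoint M₁.E M₂.E),
    M₁.E.Nonempty ∧ M₂.E.Nonempty ∧ M = M₁.disjointSum M₂ h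

/-- a finite family of matroid polytopes with union `P M`, any two of which meet in a common
face (possibly empty) -/
def Cells {n : ℕ} (M : Matroid (Fin n)) (K : Set (Set (Fin n → ℝ))) : Prop :=
  K.Finite ∧ (∀ C ∈ K, ∃ N : Matroid (Fin n), N.E = Set.univ ∧ C = P N) ∧ ⋃₀ K = P M ∧
    ∀ C ∈ K, ∀ D ∈ K, IsExposed ℝ C (C ∩ D)

end Pool.Agent.H.MP_454fc7_co
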